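import Pool.Agent.Y920.NineBW

/-!
At least six of the nine numbers
`π + e`, `π - e`, `π e`, `π / e`, `π ^ π`, `e ^ e`, `π ^ e`, `π ^ √2`, `e ^ (π²)`
are transcendental, unless one of four explicit sets of four numbers is exactly the set of the
algebraic ones.
-/

set_option autoImplicit false

namespace Pool.Agent.Results.MP_a2f59b_nt.AtLeastSix

open Real

/-- the nine numbers, in the order of the problem -/
noncomputable def nine : Fin 9 → ℝ :=
  ![π + exp 1, π - exp 1, π * exp 1, π / exp 1, π ^ π, exp 1 ^ exp 1, π ^ exp 1, π ^ √2,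
    exp 1 ^ (π ^ 2)]

/-- the set of the indices of the algebraic ones among the nine numbers -/
def alg : Set (Fin 9) := {i | IsAlgebraic ℚ (nine i)}

/-- nine sets of indices -/
def maximal : List (Finset (Fin 9)) :=
  [{2, 4}, {2, 5}, {2, 6}, {3, 4, 6}, {4, 5, 7}, {0, 4, 6, 7}, {1, 4, 6, 7}, {4, 5, 6, 8},
    {5, 6, 7, 8}]

open Pool.Agent.Y920.NineBW Pool.Agent.H301R2.Nine

theorem hB (h : IsAlgebraic ℚ (nine 4)) : IsAlgebraic ℚ (Real.exp (π * L)) := FiveOfNine.hB h
theorem hD (h : IsAlgebraic ℚ (nine 6)) : IsAlgebraic ℚ (Real.exp (Real.exp 1 * L)) :=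
  FiveOfNine.hD h
theorem hE (h : IsAlgebraic ℚ (nine 7)) : IsAlgebraic ℚ (Real.exp (√2 * L)) := FiveOfNine.hE h
theorem hF (h : IsAlgebraic ℚ (nine 8)) : IsAlgebraic ℚ (Real.exp (π * π)) := FiveOfNine.hF h

/-- the sets of indices which contain the index of a transcendental number -/
def sets : List (List (Fin 9)) := FiveOfNine.sets ++ [[0, 8], [1, 8], [2, 8], [3, 8]]

theorem main (S : List (Fin 9)) (hS : S ∈ sets) (h : ∀ i ∈ S, i ∈ alg) : False := by
  rw [sets, List.mem_append] at hS
  rcases hS with hS | hS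
  · exact FiveOfNine.main S hS h
  · simp only [List.mem_cons, List.not_mem_nil, or_false] at hS
    rcases hS with rfl | rfl | rfl | rfl <;>
      simp only [List.mem_cons, List.not_mem_nil, or_false, forall_eq_or_imp, forall_eq] at h
    · exact p08 (hF h.2) h.1
    · exact p18 (hF h.2) h.1
    · exact p28 (hF h.2) h.1
    · exact p38 (hF h.2) h.1

/-- the number of `false` -/
def cnt (b0 b1 b2 b3 b4 b5 b6 b7 b8 : Bool) : ℕ :=
  (!b0).toNat + (!b1).toNat + (!b2).toNat + (!b3).toNat + (!b4).toNat + (!b5).toNat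
    + (!b6).toNat + (!b7).toNat + (!b8).toNat

set_option maxRecDepth 100000 in
/-- the combinatorial part: `b i` stands for `nine i` is algebraic -/
theorem comb : ∀ b0 b1 b2 b3 b4 b5 b6 b7 b8 : Bool,
    (∀ S ∈ sets, ∃ i ∈ S, ![b0, b1, b2, b3, b4, b5, b6, b7, b8] i = false) →
    (6 ≤ cnt b0 b1 b2 b3 b4 b5 b6 b7 b8 ∨
      ![b0, b1, b2, b3, b4, b5, b6, b7, b8] = ![true, false, false, false, true, false, true, true, false] ∨
      ![b0, b1, b2, b3, b4, b5, b6, b7, b8] = ![false, true, false, false, true, false, true, true, false] ∨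
      ![b0, b1, b2, b3, b4, b5, b6, b7, b8] = ![false, false, false, false, true, true, true, false, true] ∨
      ![b0, b1, b2, b3, b4, b5, b6, b7, b8] = ![false, false, false, false, false, true, true, true, true]) ∧
    (∃ M ∈ maximal, ∀ i, ![b0, b1, b2, b3, b4, b5, b6, b7, b8] i = true → i ∈ M) := by
  decide +kernel

theorem result :
    (6 ≤ {i : Fin 9 | Transcendental ℚ (nine i)}.ncard ∨
      (alg = {0, 4, 6, 7} ∧ ∃ r : ℚ, π + exp 1 = r * √2) ∨
      (alg = {1, 4, 6, 7} ∧ ∃ r : ℚ, π - exp 1 = r * √2) ∨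
      ((alg = {4, 5, 6, 8} ∨ alg = {5, 6, 7, 8}) ∧ AlgebraicIndependent ℚ ![π, exp 1])) ∧
    (∃ M ∈ maximal, alg ⊆ (M : Set (Fin 9))) ∧
    (({3, 4, 6} : Set (Fin 9)) ⊆ alg → ∃ r : ℚ, π / exp 1 = r) := by
  classical
  let b : Fin 9 → Bool := fun i => decide (i ∈ alg)
  have hb : ![b 0, b 1, b 2, b 3, b 4, b 5, b 6, b 7, b 8] = b := by
    funext i
    fin_cases i <;> rfl
  have h1 : {i : Fin 9 | Transcendental ℚ (nine i)}.ncard =
      cnt (b 0) (b 1) (b 2) (b 3) (b 4) (b 5) (b 6) (b 7) (b 8) := by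
    have h2 : {i : Fin 9 | Transcendental ℚ (nine i)}
        = ((Finset.univ.filter (fun i => Transcendental ℚ (nine i)) : Finset (Fin 9)) :
          Set (Fin 9)) := by
      ext i; simp
    rw [h2, Set.ncard_coe_finset, Finset.card_filter]
    have h3 : ∀ i : Fin 9, (if Transcendental ℚ (nine i) then 1 else 0) = (!(b i)).toNat := by
      intro i
      by_cases h : IsAlgebraic ℚ (nine i)
      · have h' : i ∈ alg := h
        simp [b, h, h', Transcendental]
      · have h' : i ∉ alg := h
        simp [b, h, h', Transcendental]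
    rw [Finset.sum_congr rfl (fun i _ => h3 i)]
    simp only [Fin.sum_univ_succ, Fin.sum_univ_zero, cnt]
    simp only [add_zero, ← add_assoc]
    rfl
  have hset : ∀ v : Fin 9 → Bool, b = v → alg = {i | v i = true} := by
    intro v hv
    ext i
    rw [← hv]
    simp [b]
  obtain ⟨hc1, hc2⟩ := comb (b 0) (b 1) (b 2) (b 3) (b 4) (b 5) (b 6) (b 7) (b 8) (by
    intro S hS
    by_contra hcon
    push Not at hcon
    refine main S hS fun i hi => ?_
    have := hcon i hi
    rw [hb] at this
    simpa [b] using this)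
  rw [hb] at hc1 hc2
  rw [← h1] at hc1
  refine ⟨?_, ?_, ?_⟩
  · rcases hc1 with hc | hc | hc | hc | hc
    · exact Or.inl hc
    · refine Or.inr (Or.inl ?_)
      have ha : alg = {0, 4, 6, 7} := by
        rw [hset _ hc]; ext i; fin_cases i <;> simp
      refine ⟨ha, ?_⟩
      have a0 : IsAlgebraic ℚ (π + exp 1) := by
        have : (0 : Fin 9) ∈ alg := by rw [ha]; simp
        exact this
      have a4 : IsAlgebraic ℚ (nine 4) := by
        have : (4 : Fin 9) ∈ alg := by rw [ha]; simp
        exact this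
      have a6 : IsAlgebraic ℚ (nine 6) := by
        have : (6 : Fin 9) ∈ alg := by rw [ha]; simp
        exact this
      have a7 : IsAlgebraic ℚ (nine 7) := by
        have : (7 : Fin 9) ∈ alg := by rw [ha]; simp
        exact this
      refine mul_sqrt2 a0 ?_ (hE a7)
      rw [add_mul, Real.exp_add]
      exact (hB a4).mul (hD a6)
    · refine Or.inr (Or.inr (Or.inl ?_))
      have ha : alg = {1, 4, 6, 7} := by
        rw [hset _ hc]; ext i; fin_cases i <;> simp
      refine ⟨ha, ?_⟩
      have a0 : IsAlgebraic ℚ (π - exp 1) := by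
        have : (1 : Fin 9) ∈ alg := by rw [ha]; simp
        exact this
      have a4 : IsAlgebraic ℚ (nine 4) := by
        have : (4 : Fin 9) ∈ alg := by rw [ha]; simp
        exact this
      have a6 : IsAlgebraic ℚ (nine 6) := by
        have : (6 : Fin 9) ∈ alg := by rw [ha]; simp
        exact this
      have a7 : IsAlgebraic ℚ (nine 7) := by
        have : (7 : Fin 9) ∈ alg := by rw [ha]; simp
        exact this
      refine mul_sqrt2 a0 ?_ (hE a7)
      rw [sub_mul, Real.exp_sub]
      exact (hB a4).mul (hD a6).inv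
    · refine Or.inr (Or.inr (Or.inr ?_))
      have ha : alg = {4, 5, 6, 8} := by
        rw [hset _ hc]; ext i; fin_cases i <;> simp
      refine ⟨Or.inl ha, indep_of_pi_sq (hF ?_)⟩
      have : (8 : Fin 9) ∈ alg := by rw [ha]; simp
      exact this
    · refine Or.inr (Or.inr (Or.inr ?_))
      have ha : alg = {5, 6, 7, 8} := by
        rw [hset _ hc]; ext i; fin_cases i <;> simp
      refine ⟨Or.inr ha, indep_of_pi_sq (hF ?_)⟩
      have : (8 : Fin 9) ∈ alg := by rw [ha]; simp
      exact this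
  · obtain ⟨M, hM, h⟩ := hc2
    refine ⟨M, hM, fun i hi => ?_⟩
    exact h i (by simpa [b] using hi)
  · intro h
    exact quot_rat (h (by simp : (3 : Fin 9) ∈ _)) (hB (h (by simp : (4 : Fin 9) ∈ _)))
      (hD (h (by simp : (6 : Fin 9) ∈ _)))

end Pool.Agent.Results.MP_a2f59b_nt.AtLeastSix
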