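import Mathlib
import Pool.Agent.Y934.PairProd

/-!
# Blocks of digits in the multiples of `π + e`, `π - e`, `π e`, `π / e`

All blocks of digits occur often in the expansions of most multiples of at least three of the numbers
`π + e`, `π - e`, `π e`, `π / e`; more generally, for every real number `t ≠ 0`, of all the nonzero
numbers `t + r e` and `t e ^ k`, `r` rational and `k` an integer of bounded height, but a few.
-/

set_option autoImplicit false

open Finset Filter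

namespace Pool.Agent.Results.MP_a2f59b_nt.BlocksInMostMultiples

/-- the number of places `i < n` such that the `k` digits of `z` in base `b` after the `i`-th one are
`w 0, …, w (k - 1)` (the `j`-th digit of `z` behind the point is `⌊z b ^ j⌋ mod b`) -/
noncomputable def count (b k : ℕ) (w : Fin k → Fin b) (z : ℝ) (n : ℕ) : ℕ :=
  {i : ℕ | i < n ∧ ∀ s : Fin k, ⌊z * (b : ℝ) ^ (i + s + 1)⌋ % (b : ℤ) = ((w s : ℕ) : ℤ)}.ncard

/-- For every real `y`, for all but at most `C M ^ (1 - c)` of the `m < M`, every block of `k` digits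
in base `b` occurs at least `a b ^ (-k) log_b M log_3 (n / (C log M))` times at the first `n` places
of `y + m x`. -/
def MostMultiples (b k : ℕ) (c C a : ℝ) (M n : ℕ) (x : ℝ) : Prop :=
  ∀ y : ℝ, (({m : ℕ | m < M ∧ ¬ ∀ w : Fin k → Fin b,
    a * ((b : ℝ) ^ k)⁻¹ * Real.logb b M * Real.logb 3 (n / (C * Real.log M)) ≤
      (count b k w (y + m * x) n : ℝ)}.ncard : ℕ) : ℝ) ≤ C * (M : ℝ) ^ (1 - c)

/-- the nonzero numbers `t + r e` and `t e ^ j` with `|r.num|, r.den, |j| ≤ H` -/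
def numbers (t : ℝ) (H : ℕ) : Set ℝ :=
  {x | x ≠ 0 ∧ ((∃ r : ℚ, |r.num| ≤ H ∧ r.den ≤ H ∧ x = t + r * Real.exp 1) ∨
    ∃ j : ℤ, |j| ≤ H ∧ x = t * Real.exp j)}

open Classical in
/-- a finite set containing the numbers -/
noncomputable def fin (t : ℝ) (H : ℕ) : Finset ℝ :=
  (((Pool.Agent.Y934.rats H).image (fun r : ℚ => t + r * Real.exp 1)) ∪
    ((Finset.Icc (-(H : ℤ)) H).image (fun j : ℤ => t * Real.exp j))).filter (fun x => x ≠ 0)

lemma numbers_sub (t : ℝ) (H : ℕ) {x : ℝ} (hx : x ∈ numbers t H) : x ∈ fin t H := by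
  classical
  obtain ⟨h0, h⟩ := hx
  unfold fin
  rw [Finset.mem_filter, Finset.mem_union, Finset.mem_image, Finset.mem_image]
  refine ⟨?_, h0⟩
  rcases h with ⟨r, h1, h2, rfl⟩ | ⟨j, h1, rfl⟩
  · exact Or.inl ⟨r, Pool.Agent.Y934.mem_rats h1 h2, rfl⟩
  · exact Or.inr ⟨j, Finset.mem_Icc.2 (abs_le.1 h1), rfl⟩

lemma fin_cases' (t : ℝ) (H : ℕ) {x : ℝ} (hx : x ∈ fin t H) :
    x ≠ 0 ∧ ((∃ r : ℚ, x = t + r * Real.exp 1) ∨ ∃ j : ℤ, j ≠ 0 ∧ x = t * Real.exp j) := by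
  classical
  unfold fin at hx
  rw [Finset.mem_filter, Finset.mem_union, Finset.mem_image, Finset.mem_image] at hx
  refine ⟨hx.2, ?_⟩
  rcases hx.1 with ⟨r, -, rfl⟩ | ⟨j, -, rfl⟩
  · exact Or.inl ⟨r, rfl⟩
  · by_cases hj : j = 0
    · left
      refine ⟨0, ?_⟩
      rw [hj]
      simp
    · exact Or.inr ⟨j, hj, rfl⟩

lemma pair {κ : ℝ} (hκ : 2 < κ) (t : ℝ) (ht : t ≠ 0) (H : ℕ) {x x' : ℝ} (hx : x ∈ fin t H)
    (hx' : x' ∈ fin t H) (hne : x ≠ x') :
    ∃ c : ℝ, 0 < c ∧ ∀ (q : ℕ), 1 ≤ q → ∀ p p' : ℤ,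
      c ≤ (q : ℝ) ^ κ * |q * x - p| ∨ c ≤ (q : ℝ) ^ κ * |q * x' - p'| := by
  obtain ⟨h0, h⟩ := fin_cases' t H hx
  obtain ⟨h0', h'⟩ := fin_cases' t H hx'
  rcases h with ⟨r, rfl⟩ | ⟨j, hj, rfl⟩ <;> rcases h' with ⟨s, rfl⟩ | ⟨k, hk, rfl⟩
  · obtain ⟨c, hc, h⟩ := Pool.Agent.Y934.pair_e (by linarith : 1 < κ) r s
      (fun h => hne (by rw [h]))
    exact ⟨c, hc, h t⟩
  · exact Pool.Agent.Y934.pair_mix hκ t ht r h0 k hk
  · obtain ⟨c, hc, h⟩ := Pool.Agent.Y934.pair_mix hκ t ht s h0' j hj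
    exact ⟨c, hc, fun q hq p p' => (h q hq p' p).symm⟩
  · exact Pool.Agent.Y934.pair_prod hκ t ht j k (fun h => hne (by rw [h]))

lemma four_distinct : (Real.pi - Real.exp 1 < Real.pi / Real.exp 1) ∧
    (Real.pi / Real.exp 1 < Real.pi + Real.exp 1) ∧
    (Real.pi + Real.exp 1 < Real.pi * Real.exp 1) ∧ 0 < Real.pi - Real.exp 1 := by
  have h1 := Real.exp_one_gt_d9
  have h2 := Real.exp_one_lt_d9
  have h3 := Real.pi_gt_d2
  have h4 := Real.pi_lt_d2
  have he : 0 < Real.exp 1 := Real.exp_pos 1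
  refine ⟨?_, ?_, ?_, by linarith⟩
  · rw [lt_div_iff₀ he]
    nlinarith
  · rw [div_lt_iff₀ he]
    nlinarith
  · nlinarith

/-- (1) Let `b ≥ 2`, `k, H ≥ 1`, `0 < ε < 1` and let `t ≠ 0` be real. There are `c, C > 0` such that for
all `K ≥ 1`, `M ≥ 2` and `n` fewer than `K` of the nonzero numbers `x` of the form `t + r e` and
`t e ^ j`, with `r` rational and `j` an integer of height at most `H`, violate
`MostMultiples b k c C ((1 - ε) (1 - 1 / K)) M n x`. (2) There are `c, C > 0` such that for all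
`M ≥ 2` and `n` at most one of the four numbers `x = π + e`, `π - e`, `π e`, `π / e` violates
`MostMultiples b k c C ((1 - ε) / 2) M n x`. -/
theorem result (b k H : ℕ) (hb : 2 ≤ b) (hk : 1 ≤ k) (ε : ℝ) (hε : 0 < ε) (hε1 : ε < 1) :
    (∀ t : ℝ, t ≠ 0 → ∃ c C : ℝ, 0 < c ∧ 0 < C ∧ ∀ K M n : ℕ, 1 ≤ K → 2 ≤ M →
      {x : ℝ | x ∈ numbers t H ∧
        ¬ MostMultiples b k c C ((1 - ε) * (1 - 1 / K)) M n x}.ncard < K) ∧
    ∃ c C : ℝ, 0 < c ∧ 0 < C ∧ ∀ M n : ℕ, 2 ≤ M →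
      {i : Fin 4 | ¬ MostMultiples b k c C ((1 - ε) / 2) M n
        ((![Real.pi + Real.exp 1, Real.pi - Real.exp 1, Real.pi * Real.exp 1,
          Real.pi / Real.exp 1] : Fin 4 → ℝ) i)}.ncard ≤ 1 := by
  classical
  have main : ∀ H : ℕ, ∀ t : ℝ, t ≠ 0 → ∃ c C : ℝ, 0 < c ∧ 0 < C ∧ ∀ K M n : ℕ, 1 ≤ K → 2 ≤ M →
      {x : ℝ | x ∈ numbers t H ∧
        ¬ MostMultiples b k c C ((1 - ε) * (1 - 1 / K)) M n x}.ncard < K := by
    intro H t ht
    have hl3 : 0 < Real.log 3 := Real.log_pos (by norm_num)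
    obtain ⟨κ, hκ, hκ2⟩ : ∃ κ : ℝ, 2 < κ ∧ (1 - ε) * Real.log (1 + κ) ≤
        (1 - ε / 2) * Real.log 3 := by
      refine ⟨3 ^ (1 + ε / 2) - 1, ?_, ?_⟩
      · have : (3 : ℝ) ^ (1 : ℝ) < 3 ^ (1 + ε / 2) :=
          Real.rpow_lt_rpow_of_exponent_lt (by norm_num) (by linarith)
        rw [Real.rpow_one] at this
        linarith
      · rw [add_sub_cancel, Real.log_rpow (by norm_num), ← mul_assoc]
        refine mul_le_mul_of_nonneg_right ?_ hl3.le
        nlinarith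
    obtain ⟨c0, hc0, hpair⟩ := Pool.Agent.Y934.unif_const (I := {x // x ∈ fin t H} × {x // x ∈ fin t H})
      (fun i c => i.1 ≠ i.2 → ∀ (q : ℕ), 1 ≤ q → ∀ p p' : ℤ,
        c ≤ (q : ℝ) ^ κ * |q * i.1.1 - p| ∨ c ≤ (q : ℝ) ^ κ * |q * i.2.1 - p'|)
      (fun i c c' _ hcc h hne q hq p p' => by
        rcases h hne q hq p p' with h1 | h1
        · exact Or.inl (hcc.trans h1)
        · exact Or.inr (hcc.trans h1))
      (fun i => by
        by_cases hne : i.1 = i.2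
        · exact ⟨1, one_pos, fun h => absurd hne h⟩
        · obtain ⟨c, hc, h⟩ := pair hκ t ht H i.1.2 i.2.2 (fun h => hne (Subtype.ext h))
          exact ⟨c, hc, fun _ => h⟩)
    obtain ⟨c, C, hc, hC, h⟩ := Pool.Agent.Y934.except (Fintype.card {x // x ∈ fin t H}) κ c0
      (by linarith) hc0 b k hb hk ε (Real.log 3) hε hε1 hl3 hκ2
    refine ⟨c, C, hc, hC, fun K M n hK hM => ?_⟩
    have h1 := h {x // x ∈ fin t H} le_rfl (fun x => x.1)
      (fun i j hij q hq p p' => hpair (i, j) hij q hq p p') K M n hK hM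
    refine lt_of_le_of_lt ?_ h1
    rw [← Finset.card_map (Function.Embedding.subtype _), ← Set.ncard_coe_finset]
    refine Set.ncard_le_ncard ?_ (Finset.finite_toSet _)
    rintro x ⟨hx1, hx2⟩
    rw [Finset.mem_coe, Finset.mem_map]
    refine ⟨⟨x, numbers_sub t H hx1⟩, ?_, rfl⟩
    rw [Finset.mem_filter]
    exact ⟨mem_univ _, hx2⟩
  refine ⟨fun t ht => main H t ht, ?_⟩
  obtain ⟨c, C, hc, hC, h⟩ := main 1 Real.pi Real.pi_pos.ne'
  refine ⟨c, C, hc, hC, fun M n hM => ?_⟩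
  have h1 := h 2 M n (by norm_num) hM
  have ea : (1 - ε) * (1 - 1 / ((2 : ℕ) : ℝ)) = (1 - ε) / 2 := by
    push_cast
    ring
  rw [ea] at h1
  obtain ⟨d1, d2, d3, d4⟩ := four_distinct
  set v : Fin 4 → ℝ := ![Real.pi + Real.exp 1, Real.pi - Real.exp 1, Real.pi * Real.exp 1,
          Real.pi / Real.exp 1] with hv
  have hinj : Function.Injective v := by
    intro i j hij
    fin_cases i <;> fin_cases j <;> first | rfl | (exfalso; revert hij; simp [hv]; intro h; linarith)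
  have hmem : ∀ i, v i ∈ numbers Real.pi 1 := by
    intro i
    fin_cases i
    · refine ⟨by simp [hv]; linarith, Or.inl ⟨1, by simp, by simp, by simp [hv]⟩⟩
    · refine ⟨by simp [hv]; linarith, Or.inl ⟨-1, by simp, by simp, ?_⟩⟩
      simp [hv]
      ring
    · refine ⟨by simp [hv], Or.inr ⟨1, by simp, by simp [hv]⟩⟩
    · refine ⟨by simp [hv], Or.inr ⟨-1, by simp, ?_⟩⟩
      simp [hv, Real.exp_neg]
      ring
  have hfin : {x : ℝ | x ∈ numbers Real.pi 1 ∧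
      ¬ MostMultiples b k c C ((1 - ε) / 2) M n x}.Finite :=
    (Finset.finite_toSet (fin Real.pi 1)).subset (fun x hx => numbers_sub _ _ hx.1)
  have h2 : {i : Fin 4 | ¬ MostMultiples b k c C ((1 - ε) / 2) M n (v i)}.ncard ≤
      {x : ℝ | x ∈ numbers Real.pi 1 ∧ ¬ MostMultiples b k c C ((1 - ε) / 2) M n x}.ncard := by
    rw [← Set.ncard_image_of_injective _ hinj]
    refine Set.ncard_le_ncard ?_ hfin
    rintro _ ⟨i, hi, rfl⟩
    exact ⟨hmem i, hi⟩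
  omega

end Pool.Agent.Results.MP_a2f59b_nt.BlocksInMostMultiples
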