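import Pool.Agent.Y39.DG.Exc

/-!
# The digits of `π + e`, `π - e`, `π e`, `π / e`: at most one of them is simple at a given scale

The linear complexity `N_b(x; L)` of the first `L` digits of `x` in base `b` is the least order of
a linear recurrence over `ℚ` satisfied by these digits; it is bounded in `L` if and only if `x` is
rational and it is about `L / 2` for random digits.

We prove: in every base `b` and at every scale `L` at least three of the four numbers `π + e`,
`π - e`, `π e`, `π / e` have linear complexity at least `(1/6 - ε) L - C`, with `C` depending on `ε`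
only; more generally all but at most one of the numbers `π + r e` (`r` rational of bounded height)
and `π e ^ k` (`k` an integer of bounded size), for any real number `t ≠ 0` in place of `π`. These
are cases of a theorem on two numbers `x`, `y` with `y = (α x + β) / (γ x + δ)` where
`α, β, γ, δ ∈ ℤ[e]`, which are not both rational: if the map is not a Möbius map over `ℚ` then one
of `x`, `y` has linear complexity at least `c L - C` at each scale, and there is no common
recurrence of order less than `c L - C` for the digits of the two numbers even if errors in a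
bounded number of places are allowed.
-/

set_option autoImplicit false

namespace Pool.Agent.Results.MP_a2f59b_nt.DigitComplexity

open Finset Polynomial
open Pool.Agent.Y39.DG

/-- the exponents of the monomials that occur in the four polynomials -/
def exponents (α β γ δ : ℤ[X]) : Finset ℕ := α.support ∪ β.support ∪ γ.support ∪ δ.support

/-- from the measure to the complexities -/
theorem of_meas (μ c0 : ℝ) (hμ : 1 < μ) (hc0 : 0 < c0) (x y : ℝ)
    (hM : ∀ q : ℕ, 1 ≤ q → ∀ p : Fin 2 → ℤ, ∃ j : Fin 2,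
      c0 ≤ (q : ℝ) ^ (μ - 1) * |q * (![x, y] j) - p j|) :
    ∃ C : ℝ, 0 < C ∧ ∀ b : ℕ, 2 ≤ b → ∀ L : ℕ,
      (L : ℝ) ≤ μ * F C (complexity b x L + complexity b y L) ∧
      ∀ k : ℕ, (L : ℝ) ≤ (∑ i ∈ range (k + 1), μ ^ (i + 1)) * F C (jointComplexity b x y k L) := by
  obtain ⟨C, hC0, hC⟩ := joint μ c0 hμ hc0 x y hM
  refine ⟨C, hC0, fun b hb L => ⟨?_, fun k => ?_⟩⟩
  · obtain ⟨c, hc⟩ := attained b x L
    obtain ⟨c', hc'⟩ := attained b y L
    obtain ⟨d, hd, hd'⟩ := common _ _ c c' L _ _ hc hc'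
    have h := hC b hb 0 L _ _ _ d (dig_abs b hb _) (dig_abs b hb _) (by simp) hd hd'
    simpa using h
  · obtain ⟨a, a', c, h1, h2, h3, h4, h5⟩ := joint_attained b hb x y k L
    exact hC b hb k L _ a a' c h1 h2 h3 h4 h5

/-- the affine case -/
theorem affine (α β δ : ℤ[X]) (S : Finset ℕ) (hS : 1 ≤ S.card)
    (hα : α.support ⊆ S) (hβ : β.support ⊆ S) (hδ : δ.support ⊆ S)
    (x y : ℝ) (hxy : ev δ * y = ev α * x + ev β) (c1 : ℝ) (hc1 : 0 < c1)
    (hex : ∀ (p r : ℤ) (q : ℕ), 1 ≤ q → Aff α β δ p r q = 0 →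
      c1 ≤ max |q * x - p| |q * y - r|) (μ : ℝ) (hμ : S.card < μ) :
    ∃ C : ℝ, 0 < C ∧ ∀ b : ℕ, 2 ≤ b → ∀ L : ℕ,
      (L : ℝ) ≤ μ * F C (complexity b x L + complexity b y L) ∧
      ∀ k : ℕ, (L : ℝ) ≤ (∑ i ∈ range (k + 1), μ ^ (i + 1)) * F C (jointComplexity b x y k L) := by
  obtain ⟨n, hn⟩ : ∃ n, S.card = n + 1 := ⟨S.card - 1, by omega⟩
  have hSR : (S.card : ℝ) = n + 1 := by rw [hn]; push_cast; ring
  have hSR1 : (1 : ℝ) ≤ S.card := by exact_mod_cast hS
  obtain ⟨c0, hc0, h⟩ := aff_meas α β δ S n hn hα hβ hδ (μ - (n + 1)) (by linarith) x y hxy c1 hc1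
    hex
  refine of_meas μ c0 (by linarith) hc0 x y ?_
  have e : (n : ℝ) + 1 + (μ - (n + 1)) - 1 = μ - 1 := by ring
  rwa [e] at h

/-- the general case -/
theorem general (α β γ δ : ℤ[X]) (hdet : α * δ ≠ β * γ) (hc : ¬ Constant α β γ δ) (x y : ℝ)
    (hirr : Irrational x ∨ Irrational y) (hxy : (ev γ * x + ev δ) * y = ev α * x + ev β)
    (μ : ℝ) (hμ : (if γ = 0 then 1 else 2) * ((exponents α β γ δ).card : ℝ) < μ) :
    ∃ C : ℝ, 0 < C ∧ ∀ b : ℕ, 2 ≤ b → ∀ L : ℕ,
      (L : ℝ) ≤ μ * F C (complexity b x L + complexity b y L) ∧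
      ∀ k : ℕ, (L : ℝ) ≤ (∑ i ∈ range (k + 1), μ ^ (i + 1)) * F C (jointComplexity b x y k L) := by
  obtain ⟨S, hS⟩ : ∃ S, S = exponents α β γ δ := ⟨_, rfl⟩
  rw [← hS] at hμ
  have hα : α.support ⊆ S := by
    rw [hS]; intro i hi; simp only [exponents, mem_union]; tauto
  have hβ : β.support ⊆ S := by
    rw [hS]; intro i hi; simp only [exponents, mem_union]; tauto
  have hγ : γ.support ⊆ S := by
    rw [hS]; intro i hi; simp only [exponents, mem_union]; tauto
  have hδ : δ.support ⊆ S := by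
    rw [hS]; intro i hi; simp only [exponents, mem_union]; tauto
  have hne : S.Nonempty := by
    by_contra h
    rw [Finset.not_nonempty_iff_eq_empty] at h
    have h1 : α = 0 := by
      rw [← Polynomial.support_eq_empty]; exact Finset.subset_empty.mp (h ▸ hα)
    have h2 : β = 0 := by
      rw [← Polynomial.support_eq_empty]; exact Finset.subset_empty.mp (h ▸ hβ)
    apply hdet
    rw [h1, h2]; ring
  have hS1 : 1 ≤ S.card := Finset.card_pos.mpr hne
  obtain ⟨n, hn⟩ : ∃ n, S.card = n + 1 := ⟨S.card - 1, by omega⟩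
  have hSR : (S.card : ℝ) = n + 1 := by rw [hn]; push_cast; ring
  have hSR1 : (1 : ℝ) ≤ S.card := by exact_mod_cast hS1
  obtain ⟨c1, hc1, hex⟩ := exc_far α β γ δ hdet hc x y hirr
  by_cases hγ0 : γ = 0
  · rw [if_pos hγ0, one_mul] at hμ
    subst hγ0
    refine affine α β δ S hS1 hα hβ hδ x y ?_ c1 hc1 (fun p r q hq h => hex p r q hq ?_) μ hμ
    · have : ev (0 : ℤ[X]) = 0 := by unfold ev; simp
      rw [this, zero_mul, zero_add] at hxy
      exact hxy
    · have e : Bil α β 0 δ p r q = Aff α β δ p r q * C (q : ℤ) := by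
        unfold Bil Aff
        simp only [C_mul, C_pow]
        ring
      rw [e, h, zero_mul]
  · rw [if_neg hγ0] at hμ
    obtain ⟨c0, hc0, h⟩ := bil_meas α β γ δ S n hn hα hβ hγ hδ (μ / 2 - (n + 1)) (by linarith) x y
      hxy c1 hc1 hex
    refine of_meas μ c0 (by linarith) hc0 x y ?_
    have e : 2 * ((n : ℝ) + 1 + (μ / 2 - (n + 1))) - 1 = μ - 1 := by ring
    rwa [e] at h

/-! ### linear bounds -/

/-- the sum of the two complexities is at least `(1 / M - ε) L - C` -/
def Big (M x y : ℝ) : Prop :=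
  ∀ ε : ℝ, 0 < ε → ∃ C : ℝ, ∀ b : ℕ, 2 ≤ b → ∀ L : ℕ,
    (1 / M - ε) * L - C ≤ (complexity b x L : ℝ) + complexity b y L

lemma big_of (M x y : ℝ) (hM : 1 ≤ M) (h : ∀ μ : ℝ, M < μ → ∃ C : ℝ, 0 < C ∧ ∀ b : ℕ, 2 ≤ b →
    ∀ L : ℕ, (L : ℝ) ≤ μ * F C (complexity b x L + complexity b y L) ∧
      ∀ k : ℕ, (L : ℝ) ≤ (∑ i ∈ range (k + 1), μ ^ (i + 1)) * F C (jointComplexity b x y k L)) :
    Big M x y := by
  intro ε hε
  obtain ⟨η, hη⟩ : ∃ η : ℝ, η = ε / 2 := ⟨_, rfl⟩
  have hη0 : 0 < η := by rw [hη]; linarith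
  obtain ⟨C, hC0, hC⟩ := h (M * (1 + η)) (by nlinarith)
  obtain ⟨K, hK0, hK⟩ := F_linear C η hC0 hη0
  refine ⟨K, fun b hb L => ?_⟩
  have h1 := (hC b hb L).1
  have h2 := hK (complexity b x L + complexity b y L)
  obtain ⟨m, hm⟩ : ∃ m : ℝ, m = ((complexity b x L + complexity b y L : ℕ) : ℝ) := ⟨_, rfl⟩
  have hm0 : 0 ≤ m := by rw [hm]; positivity
  rw [← hm] at h2
  have hm' : (complexity b x L : ℝ) + complexity b y L = m := by rw [hm]; push_cast; ring
  rw [hm']
  have hM0 : 0 < M := by linarith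
  have hL : (L : ℝ) ≤ M * (1 + η) * ((1 + η) * m + K) :=
    h1.trans (mul_le_mul_of_nonneg_left h2 (by positivity))
  have hL0 : (0 : ℝ) ≤ L := Nat.cast_nonneg L
  -- `(1 - 2 η) (1 + η) ^ 2 ≤ 1`
  have h3 : (L : ℝ) / M ≤ (1 + η) * ((1 + η) * m + K) := by
    rw [div_le_iff₀ hM0]; linarith
  have h4 : (1 / M - ε) * L ≤ (1 - 2 * η) * (L / M) := by
    have h5 : (L : ℝ) / M ≤ L := div_le_self hL0 hM
    have e : (1 / M - ε) * L = L / M - 2 * η * L := by rw [hη]; ring
    rw [e]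
    nlinarith
  rcases le_or_gt (1 - 2 * η) 0 with h5 | h5
  · have h6 : (1 - 2 * η) * ((L : ℝ) / M) ≤ 0 :=
      mul_nonpos_of_nonpos_of_nonneg h5 (div_nonneg hL0 hM0.le)
    linarith
  · have h6 := mul_le_mul_of_nonneg_left h3 h5.le
    have h7 : (1 - 2 * η) * (1 + η) ≤ 1 := by nlinarith
    have h8 : (1 - 2 * η) * (1 + η) * (1 + η) ≤ 1 := by nlinarith [sq_nonneg η]
    have h9 : (1 - 2 * η) * ((1 + η) * ((1 + η) * m + K)) =
        (1 - 2 * η) * (1 + η) * (1 + η) * m + (1 - 2 * η) * (1 + η) * K := by ring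
    rw [h9] at h6
    have h10 := mul_le_mul_of_nonneg_right h8 hm0
    have h11 := mul_le_mul_of_nonneg_right h7 hK0
    linarith

lemma big_mono {M M' x y : ℝ} (hM : 1 ≤ M) (hMM : M ≤ M') (h : Big M x y) : Big M' x y := by
  intro ε hε
  obtain ⟨C, hC⟩ := h ε hε
  refine ⟨C, fun b hb L => le_trans ?_ (hC b hb L)⟩
  have h1 : 1 / M' ≤ 1 / M := one_div_le_one_div_of_le (by linarith) hMM
  have hL0 : (0 : ℝ) ≤ L := Nat.cast_nonneg L
  nlinarith

lemma big_symm {M x y : ℝ} (h : Big M x y) : Big M y x := by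
  intro ε hε
  obtain ⟨C, hC⟩ := h ε hε
  refine ⟨C, fun b hb L => ?_⟩
  have := hC b hb L
  linarith

/-- the affine case in the linear form -/
theorem big_affine (α β δ : ℤ[X]) (S : Finset ℕ) (hS : 1 ≤ S.card)
    (hα : α.support ⊆ S) (hβ : β.support ⊆ S) (hδ : δ.support ⊆ S)
    (x y : ℝ) (hxy : ev δ * y = ev α * x + ev β) (hx : x ≠ 0)
    (hex : ∀ (p r : ℤ) (q : ℕ), 1 ≤ q → (∀ i, δ.coeff i * r - α.coeff i * p - β.coeff i * q = 0) →
      p = 0) : Big S.card x y := by
  refine big_of _ x y (by exact_mod_cast hS) fun μ hμ =>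
    affine α β δ S hS hα hβ hδ x y hxy |x| (abs_pos.mpr hx) (fun p r q hq h => ?_) μ hμ
  have hp := hex p r q hq fun i => by rw [← Aff_coeff, h, coeff_zero]
  have hqR : (1 : ℝ) ≤ q := by exact_mod_cast hq
  rw [hp]
  refine le_trans ?_ (le_max_left _ _)
  rw [Int.cast_zero, sub_zero, abs_mul, abs_of_nonneg (by linarith : (0 : ℝ) ≤ q)]
  exact le_mul_of_one_le_left (abs_nonneg _) hqR

lemma aevC (a : ℤ) : aeval (Real.exp 1) (C a : ℤ[X]) = (a : ℝ) := by
  rw [aeval_C]; simp

lemma supp_subset {P : ℤ[X]} {S : Finset ℕ} (h : ∀ i, i ∉ S → P.coeff i = 0) : P.support ⊆ S := by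
  intro i hi
  by_contra hiS
  exact (mem_support_iff.mp hi) (h i hiS)

/-- `t + r e` and `t + s e` -/
theorem pair1 (t : ℝ) (r s : ℚ) (hrs : r ≠ s) :
    Big 2 (t + r * Real.exp 1) (t + s * Real.exp 1) := by
  obtain ⟨D, hD⟩ : ∃ D : ℤ, D = r.den * s.den := ⟨_, rfl⟩
  obtain ⟨E, hE⟩ : ∃ E : ℤ, E = s.num * r.den - r.num * s.den := ⟨_, rfl⟩
  have hr0 : (r.den : ℚ) ≠ 0 := by exact_mod_cast r.den_nz
  have hs0 : (s.den : ℚ) ≠ 0 := by exact_mod_cast s.den_nz
  have hr : (r.num : ℚ) = r * r.den := (Rat.mul_den_eq_num r).symm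
  have hs : (s.num : ℚ) = s * s.den := (Rat.mul_den_eq_num s).symm
  have hEQ : (E : ℚ) = D * (s - r) := by
    rw [hE, hD]
    push_cast
    rw [hr, hs]
    ring
  have hD0 : (D : ℚ) ≠ 0 := by
    rw [hD]
    push_cast
    exact mul_ne_zero hr0 hs0
  have hE0 : E ≠ 0 := by
    intro h
    rw [h, Int.cast_zero] at hEQ
    rcases mul_eq_zero.mp hEQ.symm with h1 | h1
    · exact hD0 h1
    · exact hrs (sub_eq_zero.mp h1).symm
  have hER : (E : ℝ) = D * ((s : ℝ) - r) := by exact_mod_cast hEQ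
  have hcard : (({0, 1} : Finset ℕ).card : ℝ) = 2 := by norm_num
  refine big_of 2 _ _ (by norm_num) fun μ hμ =>
    affine (C D) (C E * X) (C D) {0, 1} (by norm_num) ?_ ?_ ?_ _ _ ?_ 1 one_pos
      (fun p r' q hq h => ?_) μ (by rw [hcard]; exact hμ)
  · refine supp_subset fun i hi => ?_
    simp only [mem_insert, mem_singleton, not_or] at hi
    rw [coeff_C, if_neg hi.1]
  · refine supp_subset fun i hi => ?_
    simp only [mem_insert, mem_singleton, not_or] at hi
    rw [coeff_C_mul, coeff_X, if_neg (Ne.symm hi.2), mul_zero]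
  · refine supp_subset fun i hi => ?_
    simp only [mem_insert, mem_singleton, not_or] at hi
    rw [coeff_C, if_neg hi.1]
  · unfold ev
    simp only [map_mul, aevC, aeval_X]
    rw [hER]
    ring
  · exfalso
    have h1 : (Aff (C D) (C E * X) (C D) p r' q).coeff 1 = 0 := by rw [h, coeff_zero]
    rw [Aff_coeff, coeff_C, if_neg one_ne_zero, coeff_C_mul, coeff_X, if_pos rfl] at h1
    have h2 : E * q = 0 := by linarith
    rcases mul_eq_zero.mp h2 with h3 | h3
    · exact hE0 h3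
    · omega

/-- `t e ^ j` and `t e ^ k` -/
theorem pair2 (t : ℝ) (ht : t ≠ 0) (j k : ℤ) (hjk : j < k) :
    Big 2 (t * Real.exp j) (t * Real.exp k) := by
  obtain ⟨n, hn⟩ : ∃ n : ℕ, n = (k - j).toNat := ⟨_, rfl⟩
  have hn1 : 1 ≤ n := by omega
  have hkj : (k : ℝ) = j + n := by
    have : k = j + n := by omega
    exact_mod_cast this
  have hcard : (({0, n} : Finset ℕ).card : ℝ) = 2 := by
    rw [Finset.card_pair (by omega)]; norm_num
  have h := big_affine (X ^ n) 0 1 {0, n} (by rw [Finset.card_pair (by omega)]; omega)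
    (by
      refine supp_subset fun i hi => ?_
      simp only [mem_insert, mem_singleton, not_or] at hi
      rw [coeff_X_pow, if_neg hi.2]) (by simp)
    (by
      refine supp_subset fun i hi => ?_
      simp only [mem_insert, mem_singleton, not_or] at hi
      rw [coeff_one, if_neg hi.1])
    (t * Real.exp j) (t * Real.exp k) (by
      unfold ev
      simp only [map_one, map_pow, aeval_X, map_zero]
      rw [hkj, Real.exp_add, ← Real.exp_nat_mul, mul_one]
      ring) (mul_ne_zero ht (Real.exp_ne_zero _)) (fun p r q hq h => by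
      have h1 := h n
      rw [coeff_one, if_neg (by omega), coeff_X_pow, if_pos rfl, coeff_zero] at h1
      linarith)
  rwa [hcard] at h

/-- `t + r e` and `t e ^ k`, `k ≥ 1` -/
theorem pair3 (t : ℝ) (r : ℚ) (k : ℕ) (hk : 1 ≤ k) (hx : t + r * Real.exp 1 ≠ 0) :
    Big 3 (t + r * Real.exp 1) (t * Real.exp k) := by
  have hr : (r : ℝ) * r.den = r.num := by exact_mod_cast Rat.mul_den_eq_num r
  have hd0 : (r.den : ℤ) ≠ 0 := by exact_mod_cast r.den_nz
  have h := big_affine (C (r.den : ℤ) * X ^ k) (- C r.num * X ^ (k + 1)) (C (r.den : ℤ))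
    {0, k, k + 1} (Finset.card_pos.mpr ⟨0, by simp⟩)
    (by
      refine supp_subset fun i hi => ?_
      simp only [mem_insert, mem_singleton, not_or] at hi
      rw [coeff_C_mul, coeff_X_pow, if_neg hi.2.1, mul_zero])
    (by
      refine supp_subset fun i hi => ?_
      simp only [mem_insert, mem_singleton, not_or] at hi
      rw [← C_neg, coeff_C_mul, coeff_X_pow, if_neg hi.2.2, mul_zero])
    (by
      refine supp_subset fun i hi => ?_
      simp only [mem_insert, mem_singleton, not_or] at hi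
      rw [coeff_C, if_neg hi.1])
    (t + r * Real.exp 1) (t * Real.exp k) (by
      unfold ev
      simp only [map_mul, map_neg, map_pow, aevC, aeval_X]
      rw [← hr, Int.cast_natCast, ← Real.exp_nat_mul, ← Real.exp_nat_mul, mul_one, mul_one]
      push_cast
      rw [Real.exp_add]
      ring) hx (fun p r' q hq h => by
      have h1 := h k
      rw [coeff_C, if_neg (by omega), coeff_C_mul, coeff_X_pow, if_pos rfl, ← C_neg, coeff_C_mul,
        coeff_X_pow, if_neg (by omega)] at h1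
      have h2 : (r.den : ℤ) * p = 0 := by linarith
      rcases mul_eq_zero.mp h2 with h3 | h3
      · exact absurd h3 hd0
      · exact h3)
  refine big_mono ?_ ?_ h
  · exact_mod_cast (Finset.card_pos.mpr ⟨0, by simp⟩ : 0 < ({0, k, k + 1} : Finset ℕ).card)
  · have h3 : ({0, k, k + 1} : Finset ℕ).card ≤ 3 := Finset.card_le_three
    exact_mod_cast h3

/-- `t + r e` and `t e ^ (- l)`, `l ≥ 1` -/
theorem pair4 (t : ℝ) (r : ℚ) (l : ℕ) (hl : 1 ≤ l) (hx : t + r * Real.exp 1 ≠ 0) :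
    Big ({0, 1, l} : Finset ℕ).card (t + r * Real.exp 1) (t * Real.exp (-(l : ℝ))) := by
  have hr : (r : ℝ) * r.den = r.num := by exact_mod_cast Rat.mul_den_eq_num r
  have hd0 : (r.den : ℤ) ≠ 0 := by exact_mod_cast r.den_nz
  exact big_affine (C (r.den : ℤ)) (- C r.num * X) (C (r.den : ℤ) * X ^ l)
    {0, 1, l} (Finset.card_pos.mpr ⟨0, by simp⟩)
    (by
      refine supp_subset fun i hi => ?_
      simp only [mem_insert, mem_singleton, not_or] at hi
      rw [coeff_C, if_neg hi.1])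
    (by
      refine supp_subset fun i hi => ?_
      simp only [mem_insert, mem_singleton, not_or] at hi
      rw [← C_neg, coeff_C_mul, coeff_X, if_neg (Ne.symm hi.2.1), mul_zero])
    (by
      refine supp_subset fun i hi => ?_
      simp only [mem_insert, mem_singleton, not_or] at hi
      rw [coeff_C_mul, coeff_X_pow, if_neg hi.2.2, mul_zero])
    (t + r * Real.exp 1) (t * Real.exp (-(l : ℝ))) (by
      unfold ev
      simp only [map_mul, map_neg, map_pow, aevC, aeval_X]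
      have e1 : Real.exp 1 ^ l * Real.exp (-(l : ℝ)) = 1 := by
        rw [← Real.exp_nat_mul, mul_one, ← Real.exp_add, add_neg_cancel, Real.exp_zero]
      rw [← hr, Int.cast_natCast]
      linear_combination (r.den : ℝ) * t * e1) hx (fun p r' q hq h => by
      have h1 := h 0
      rw [coeff_C_mul, coeff_X_pow, if_neg (by omega), coeff_C, if_pos rfl, ← C_neg, coeff_C_mul,
        coeff_X, if_neg one_ne_zero] at h1
      have h2 : (r.den : ℤ) * p = 0 := by linarith
      rcases mul_eq_zero.mp h2 with h3 | h3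
      · exact absurd h3 hd0
      · exact h3)

/-! ### all but at most one -/

theorem all_but_one {ι : Type} [Fintype ι] [Nonempty ι] (v : ι → ℝ)
    (h : ∀ i j, i ≠ j → Big 3 (v i) (v j)) (ε : ℝ) (hε : 0 < ε) :
    ∃ C : ℝ, ∀ b : ℕ, 2 ≤ b → ∀ L : ℕ, ∃ j, ∀ i, i ≠ j →
      (1 / 6 - ε) * L - C ≤ (complexity b (v i) L : ℝ) := by
  classical
  choose! Cf hCf using fun (x : ι × ι) (hx : x.1 ≠ x.2) => h x.1 x.2 hx (2 * ε) (by linarith)
  obtain ⟨K, hK⟩ : ∃ K : ℝ, K = ∑ x : ι × ι, |Cf x| := ⟨_, rfl⟩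
  have hK0 : 0 ≤ K := by rw [hK]; exact Finset.sum_nonneg fun _ _ => abs_nonneg _
  refine ⟨K, fun b hb L => ?_⟩
  by_cases hall : ∀ i, (1 / 6 - ε) * L - K ≤ (complexity b (v i) L : ℝ)
  · obtain ⟨j⟩ := ‹Nonempty ι›
    exact ⟨j, fun i _ => hall i⟩
  · push Not at hall
    obtain ⟨j, hj⟩ := hall
    refine ⟨j, fun i hij => ?_⟩
    have h1 := hCf (i, j) hij b hb L
    dsimp only at h1
    have h2 : Cf (i, j) ≤ K := by
      rw [hK]
      exact (le_abs_self _).trans
        (Finset.single_le_sum (f := fun x => |Cf x|) (fun _ _ => abs_nonneg _) (mem_univ (i, j)))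
    linarith

/-- the numbers `t + r e` (`r` rational of height at most `H`) and `t e ^ k` (`|k| ≤ H`) -/
def Family (t : ℝ) (H : ℕ) : Set ℝ :=
  {x | (∃ r : ℚ, |r.num| ≤ H ∧ r.den ≤ H ∧ x = t + r * Real.exp 1) ∨
    ∃ k : ℤ, |k| ≤ H ∧ x = t * Real.exp k}

lemma family_finite (t : ℝ) (H : ℕ) : (Family t H).Finite := by
  have h1 : {r : ℚ | |r.num| ≤ H ∧ r.den ≤ H}.Finite := by
    refine ((Finset.Icc (-(H : ℤ)) H ×ˢ Finset.range (H + 1)).image
      (fun x : ℤ × ℕ => (x.1 : ℚ) / x.2)).finite_toSet.subset ?_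
    rintro r ⟨h1, h2⟩
    rw [Finset.mem_coe, mem_image]
    refine ⟨(r.num, r.den), ?_, Rat.num_div_den r⟩
    rw [mem_product, Finset.mem_Icc, mem_range]
    exact ⟨abs_le.mp h1, by omega⟩
  refine ((h1.image fun r : ℚ => t + r * Real.exp 1).union
    ((Set.finite_Icc (-(H : ℤ)) H).image fun k : ℤ => t * Real.exp k)).subset ?_
  rintro x (⟨r, h2, h3, rfl⟩ | ⟨k, h2, rfl⟩)
  · exact Or.inl ⟨r, ⟨h2, h3⟩, rfl⟩
  · exact Or.inr ⟨k, abs_le.mp h2, rfl⟩

lemma mixed (t : ℝ) (r : ℚ) (k : ℤ) (hx : t + r * Real.exp 1 ≠ 0)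
    (hne : t + r * Real.exp 1 ≠ t * Real.exp k) :
    Big 3 (t + r * Real.exp 1) (t * Real.exp k) := by
  rcases lt_trichotomy k 0 with h | h | h
  · obtain ⟨l, hl⟩ : ∃ l : ℕ, l = (-k).toNat := ⟨_, rfl⟩
    have hk : (k : ℝ) = -(l : ℝ) := by
      have : k = -(l : ℤ) := by omega
      exact_mod_cast this
    rw [hk]
    refine big_mono ?_ ?_ (pair4 t r l (by omega) hx)
    · exact_mod_cast (Finset.card_pos.mpr ⟨0, by simp⟩ : 0 < ({0, 1, l} : Finset ℕ).card)
    · have h3 : ({0, 1, l} : Finset ℕ).card ≤ 3 := Finset.card_le_three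
      exact_mod_cast h3
  · subst h
    have e : t * Real.exp ((0 : ℤ) : ℝ) = t + ((0 : ℚ) : ℝ) * Real.exp 1 := by simp
    rw [e] at hne ⊢
    refine big_mono one_le_two (by norm_num) (pair1 t r 0 fun h => hne ?_)
    rw [h]
  · obtain ⟨n, hn⟩ : ∃ n : ℕ, k = n := ⟨k.toNat, by omega⟩
    have := pair3 t r n (by omega) hx
    rwa [hn, Int.cast_natCast]

lemma family_pair (t : ℝ) (ht : t ≠ 0) (H : ℕ) (x y : ℝ) (hx : x ∈ Family t H)
    (hy : y ∈ Family t H) (hx0 : x ≠ 0) (hy0 : y ≠ 0) (hxy : x ≠ y) : Big 3 x y := by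
  rcases hx with ⟨r, _, _, rfl⟩ | ⟨j, _, rfl⟩
  · rcases hy with ⟨s, _, _, rfl⟩ | ⟨k, _, rfl⟩
    · exact big_mono one_le_two (by norm_num) (pair1 t r s fun h => hxy (by rw [h]))
    · exact mixed t r k hx0 hxy
  · rcases hy with ⟨s, _, _, rfl⟩ | ⟨k, _, rfl⟩
    · exact big_symm (mixed t s j hy0 hxy.symm)
    · rcases lt_trichotomy j k with h | h | h
      · exact big_mono one_le_two (by norm_num) (pair2 t ht j k h)
      · exact absurd (by rw [h]) hxy
      · exact big_symm (big_mono one_le_two (by norm_num) (pair2 t ht k j h))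

/-- the four numbers -/
noncomputable def four : Fin 4 → ℝ :=
  ![Real.pi + Real.exp 1, Real.pi - Real.exp 1, Real.pi * Real.exp 1, Real.pi / Real.exp 1]

/-- **Main theorem.** Let `F C m = m + C √((m + 1) log (m + 2))`.

(A) Let `α, β, γ, δ` be integer polynomials with `α δ ≠ β γ` which are not rational multiples of one
polynomial, let `n` be the number of the exponents of the monomials occurring in them, and let
`μ > 2 n` or `γ = 0` and `μ > n`. Let `x`, `y` be real numbers, not both rational, with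
`(γ(e) x + δ(e)) y = α(e) x + β(e)`. There is `C` such that for all bases `b ≥ 2` and all `L` the
sum `m` of the linear complexities of the first `L` digits of `x` and of `y` satisfies
`L ≤ μ F C m`, and for all `k` the joint `k`-error linear complexity `m` satisfies
`L ≤ (μ + ⋯ + μ ^ (k + 1)) F C m`.

(B) For real `t ≠ 0` and all `H`, `ε > 0` there is `C` such that for all `b ≥ 2` and all `L` all
non-zero numbers `x` in the family with at most one exception `x₀` have linear complexity at least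
`(1/6 - ε) L - C`.

(C) For the four numbers: pairwise bounds.

(D) At least three of the four numbers `π + e`, `π - e`, `π e`, `π / e` have linear complexity at
least `(1/6 - ε) L - C`, for all `b` and `L`. -/
theorem result :
    (∀ α β γ δ : ℤ[X], α * δ ≠ β * γ → ¬ Constant α β γ δ →
      ∀ x y : ℝ, (Irrational x ∨ Irrational y) → (ev γ * x + ev δ) * y = ev α * x + ev β →
      ∀ μ : ℝ, (if γ = 0 then 1 else 2) * ((exponents α β γ δ).card : ℝ) < μ →
      ∃ C : ℝ, 0 < C ∧ ∀ b : ℕ, 2 ≤ b → ∀ L : ℕ,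
        (L : ℝ) ≤ μ * F C (complexity b x L + complexity b y L) ∧
        ∀ k : ℕ, (L : ℝ) ≤
          (∑ i ∈ range (k + 1), μ ^ (i + 1)) * F C (jointComplexity b x y k L)) ∧
    (∀ t : ℝ, t ≠ 0 → ∀ (H : ℕ) (ε : ℝ), 0 < ε → ∃ C : ℝ, ∀ b : ℕ, 2 ≤ b → ∀ L : ℕ,
      ∃ x₀ : ℝ, ∀ x ∈ Family t H, x ≠ 0 → x ≠ x₀ →
        (1 / 6 - ε) * L - C ≤ (complexity b x L : ℝ)) ∧
    (∀ ε : ℝ, 0 < ε → ∃ C : ℝ, ∀ b : ℕ, 2 ≤ b → ∀ L : ℕ,
      (∀ i j : Fin 4, i < j → (i, j) ≠ (0, 2) → (i, j) ≠ (1, 2) →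
        (1 / 2 - ε) * L - C ≤ (complexity b (four i) L : ℝ) + complexity b (four j) L) ∧
      (∀ i j : Fin 4, i < j →
        (1 / 3 - ε) * L - C ≤ (complexity b (four i) L : ℝ) + complexity b (four j) L)) ∧
    (∀ ε : ℝ, 0 < ε → ∃ C : ℝ, ∀ b : ℕ, 2 ≤ b → ∀ L : ℕ, ∃ j : Fin 4, ∀ i : Fin 4, i ≠ j →
      (1 / 6 - ε) * L - C ≤ (complexity b (four i) L : ℝ)) := by
  classical
  have he : Real.exp 1 < 3 := by have := Real.exp_one_lt_d9; linarith
  have hpi : 3 < Real.pi := Real.pi_gt_three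
  have hpi0 : Real.pi ≠ 0 := by linarith
  have e0 : four 0 = Real.pi + ((1 : ℚ) : ℝ) * Real.exp 1 := by simp [four]
  have e1 : four 1 = Real.pi + ((-1 : ℚ) : ℝ) * Real.exp 1 := by simp [four]; ring
  have e2 : four 2 = Real.pi * Real.exp ((1 : ℕ) : ℝ) := by simp [four]
  have e3 : four 3 = Real.pi * Real.exp (-((1 : ℕ) : ℝ)) := by
    simp [four, Real.exp_neg, div_eq_mul_inv]
  have h0 : Real.pi + ((1 : ℚ) : ℝ) * Real.exp 1 ≠ 0 := by
    have := Real.exp_pos 1
    push_cast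
    linarith
  have h1 : Real.pi + ((-1 : ℚ) : ℝ) * Real.exp 1 ≠ 0 := by
    push_cast
    intro h
    linarith
  have hc1 : ((({0, 1, 1} : Finset ℕ).card : ℕ) : ℝ) = 2 := by norm_num
  have p01 : Big 2 (four 0) (four 1) := by
    rw [e0, e1]; exact pair1 Real.pi 1 (-1) (by norm_num)
  have p02 : Big 3 (four 0) (four 2) := by
    rw [e0, e2]; exact pair3 Real.pi 1 1 le_rfl h0
  have p12 : Big 3 (four 1) (four 2) := by
    rw [e1, e2]; exact pair3 Real.pi (-1) 1 le_rfl h1
  have p03 : Big 2 (four 0) (four 3) := by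
    rw [e0, e3, ← hc1]; exact pair4 Real.pi 1 1 le_rfl h0
  have p13 : Big 2 (four 1) (four 3) := by
    rw [e1, e3, ← hc1]; exact pair4 Real.pi (-1) 1 le_rfl h1
  have p23 : Big 2 (four 2) (four 3) := by
    have h := pair2 Real.pi hpi0 (-1) 1 (by norm_num)
    rw [e2, e3]
    push_cast at h ⊢
    exact big_symm h
  have hp2 : ∀ i j : Fin 4, i < j → (i, j) ≠ (0, 2) → (i, j) ≠ (1, 2) →
      Big 2 (four i) (four j) := by
    intro i j hij ha hb
    fin_cases i <;> fin_cases j <;> first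
      | exact absurd hij (by decide)
      | exact absurd rfl ha
      | exact absurd rfl hb
      | exact p01
      | exact p03
      | exact p13
      | exact p23
  have hp3 : ∀ i j : Fin 4, i < j → Big 3 (four i) (four j) := by
    intro i j hij
    by_cases ha : (i, j) = (0, 2)
    · rw [Prod.mk.injEq] at ha
      rw [ha.1, ha.2]; exact p02
    by_cases hb : (i, j) = (1, 2)
    · rw [Prod.mk.injEq] at hb
      rw [hb.1, hb.2]; exact p12
    exact big_mono one_le_two (by norm_num) (hp2 i j hij ha hb)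
  refine ⟨general, fun t ht H ε hε => ?_, fun ε hε => ?_, fun ε hε => ?_⟩
  · obtain ⟨T, hT⟩ : ∃ T : Set ℝ, T = {x | x ∈ Family t H ∧ x ≠ 0} := ⟨_, rfl⟩
    have hfin : T.Finite := by
      rw [hT]; exact (family_finite t H).subset fun x hx => hx.1
    have hTm : ∀ x, x ∈ T ↔ x ∈ Family t H ∧ x ≠ 0 := fun x => by rw [hT]; rfl
    have : Fintype T := hfin.fintype
    by_cases hne : Nonempty T
    · obtain ⟨C, hC⟩ := all_but_one (fun x : T => (x : ℝ)) (fun i j hij => by
        have hi := (hTm _).mp i.2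
        have hj := (hTm _).mp j.2
        exact family_pair t ht H i j hi.1 hj.1 hi.2 hj.2 fun h => hij (Subtype.ext h)) ε hε
      refine ⟨C, fun b hb L => ?_⟩
      obtain ⟨j, hj⟩ := hC b hb L
      refine ⟨j, fun x hx hx0 hxj => ?_⟩
      exact hj ⟨x, (hTm x).mpr ⟨hx, hx0⟩⟩ fun h => hxj (by rw [← h])
    · refine ⟨0, fun b hb L => ⟨0, fun x hx hx0 _ => ?_⟩⟩
      exact absurd ⟨⟨x, (hTm x).mpr ⟨hx, hx0⟩⟩⟩ hne
  · choose! C2 hC2 using fun (x : Fin 4 × Fin 4) (hx : x.1 < x.2 ∧ x ≠ (0, 2) ∧ x ≠ (1, 2)) =>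
      hp2 x.1 x.2 hx.1 hx.2.1 hx.2.2 ε hε
    choose! C3 hC3 using fun (x : Fin 4 × Fin 4) (hx : x.1 < x.2) => hp3 x.1 x.2 hx ε hε
    refine ⟨∑ x : Fin 4 × Fin 4, (|C2 x| + |C3 x|), fun b hb L => ⟨fun i j hij ha hb' => ?_,
      fun i j hij => ?_⟩⟩
    · have h5 := hC2 (i, j) ⟨hij, ha, hb'⟩ b hb L
      dsimp only at h5
      have h6 : C2 (i, j) ≤ ∑ x : Fin 4 × Fin 4, (|C2 x| + |C3 x|) := by
        refine le_trans ?_ (Finset.single_le_sum (f := fun x => |C2 x| + |C3 x|)
          (fun _ _ => add_nonneg (abs_nonneg _) (abs_nonneg _)) (mem_univ (i, j)))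
        have := le_abs_self (C2 (i, j))
        have := abs_nonneg (C3 (i, j))
        linarith
      linarith
    · have h5 := hC3 (i, j) hij b hb L
      dsimp only at h5
      have h6 : C3 (i, j) ≤ ∑ x : Fin 4 × Fin 4, (|C2 x| + |C3 x|) := by
        refine le_trans ?_ (Finset.single_le_sum (f := fun x => |C2 x| + |C3 x|)
          (fun _ _ => add_nonneg (abs_nonneg _) (abs_nonneg _)) (mem_univ (i, j)))
        have := le_abs_self (C3 (i, j))
        have := abs_nonneg (C2 (i, j))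
        linarith
      linarith
  · refine all_but_one four (fun i j hij => ?_) ε hε
    rcases lt_or_gt_of_ne hij with h | h
    · exact hp3 i j h
    · exact big_symm (hp3 j i h)

end Pool.Agent.Results.MP_a2f59b_nt.DigitComplexity
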