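import Pool.Agent.Y920.NearE

/-!
# Near algebraic relations between `π` or `e` and an arbitrary complex number are sparse
-/

set_option autoImplicit false

namespace Pool.Agent.Results.MP_a2f59b_nt.NearRelations

open Polynomial Real

/-- the largest absolute value of a coefficient of the polynomial `P` in two variables -/
noncomputable def height (P : ℤ[X][X]) : ℕ :=
  P.support.sup fun j => (P.coeff j).support.sup fun i => ((P.coeff j).coeff i).natAbs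

/-- the value `P(x, t) = ∑ P_ij x ^ i t ^ j` -/
noncomputable def value (x t : ℂ) (P : ℤ[X][X]) : ℂ := (P.map (aeval x).toRingHom).eval t

/-- the irreducible integral polynomials in two variables, of degree at most `D` in each variable,
with positive leading coefficient (that is, one of `P` and `-P`) -/
def Irr (D : ℕ) : Set ℤ[X][X] :=
  {P | Irreducible P ∧ P.natDegree ≤ D ∧ (∀ j, (P.coeff j).natDegree ≤ D) ∧
    0 < P.leadingCoeff.leadingCoeff}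

/-- two different irreducible polynomials are not both small at `(x, t)`: one of the two values is
at least `C * H ^ (-κ)`, uniformly for `t` in a disc -/
def NoTwo (x : ℂ) (D : ℕ) (κ : ℝ) : Prop :=
  ∀ T : ℝ, ∃ C : ℝ, 0 < C ∧ ∀ t : ℂ, ‖t‖ ≤ T → ∀ P ∈ Irr D, ∀ Q ∈ Irr D, P ≠ Q →
    ∀ H : ℝ, (height P : ℝ) ≤ H → (height Q : ℝ) ≤ H →
      C * H ^ (-κ) ≤ max ‖value x t P‖ ‖value x t Q‖

/-- for every complex `t`, the irreducible `P` of height at most `X` with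
`|P(x, t)| ≤ (height P) ^ (-w)` number at most `log log X / log ρ + C`, for `1 < ρ < w / κ` -/
def Sparse (x : ℂ) (D : ℕ) (κ : ℝ) : Prop :=
  ∀ (t : ℂ) (w ρ : ℝ), 1 < ρ → ρ < w / κ → ∃ C : ℝ, ∀ X : ℝ, 3 ≤ X →
    {P ∈ Irr D | ‖value x t P‖ ≤ (height P : ℝ) ^ (-w) ∧ (height P : ℝ) ≤ X}.Finite ∧
    ({P ∈ Irr D | ‖value x t P‖ ≤ (height P : ℝ) ^ (-w) ∧ (height P : ℝ) ≤ X}.ncard : ℝ) ≤
      log (log X) / log ρ + C

open Pool.Agent.TH456.TM in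
theorem NoTwo.sparse {x : ℂ} {D : ℕ} {κ : ℝ} (hκ : 0 < κ) (h : NoTwo x D κ) : Sparse x D κ := by
  intro t w ρ hρ hρw
  obtain ⟨C, hC⟩ := sparse_alg x D κ hκ h t w ρ hρ hρw
  refine ⟨C, fun X hX => ?_⟩
  have e : {P ∈ Irr D | ‖value x t P‖ ≤ (height P : ℝ) ^ (-w) ∧ (height P : ℝ) ≤ X} =
      {P ∈ {P : ℤ[X][X] | P ∈ IR D ∧ ‖vl x t P‖ ≤ (hgt P : ℝ) ^ (-w)} | (hgt P : ℝ) ≤ X} := by
    ext P
    constructor
    · rintro ⟨h1, h2, h3⟩; exact ⟨⟨h1, h2⟩, h3⟩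
    · rintro ⟨⟨h1, h2⟩, h3⟩; exact ⟨h1, h2, h3⟩
  rw [e]
  exact hC X hX

theorem result (D : ℕ) (hD : 1 ≤ D) :
    (∃ κ : ℝ, 0 < κ ∧ NoTwo (π : ℂ) D κ ∧ Sparse (π : ℂ) D κ) ∧
    (∀ κ : ℝ, 4 * (D : ℝ) ^ 3 + 2 * D < κ →
      NoTwo ((exp 1 : ℝ) : ℂ) D κ ∧ Sparse ((exp 1 : ℝ) : ℂ) D κ) := by
  constructor
  · obtain ⟨κ, hκ, h⟩ := Pool.Agent.TH456.TM.core (π : ℂ) Pool.Agent.TH456.TM.measT_pi D hD
    have h' : NoTwo (π : ℂ) D κ := h
    exact ⟨κ, hκ, h', h'.sparse hκ⟩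
  · intro κ hκ
    have h := Pool.Agent.Y920.NearE.core_e D hD (κ - (4 * (D : ℝ) ^ 3 + 2 * D)) (by linarith)
    have h' : NoTwo ((exp 1 : ℝ) : ℂ) D κ := by
      have e : 4 * (D : ℝ) ^ 3 + 2 * D + (κ - (4 * (D : ℝ) ^ 3 + 2 * D)) = κ := by ring
      rw [e] at h
      exact h
    have hκ0 : 0 < κ := lt_of_le_of_lt (by positivity) hκ
    exact ⟨h', h'.sparse hκ0⟩

end Pool.Agent.Results.MP_a2f59b_nt.NearRelations
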